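import Pool.Agent.Y843.HS.Stm

/-!
Project HS (helper843), task TUP: the sums over the tuples of sets of primes.
-/

set_option autoImplicit false

open Finset

namespace Pool.Agent.Y484.HS

open Pool.Agent.Y843.HS

/-- the number of `c` modulo `p` with `c + u i` in a class of `Z p` for all `i ∈ B` -/
def nB (Z : ℕ → Finset ℕ) {m : ℕ} (u : Fin m → ℕ) (p : ℕ) (B : Finset (Fin m)) : ℕ :=
  ((range p).filter (fun c => ∀ i ∈ B, (c + u i) % p ∈ Z p)).card

theorem nU_eq (Z : ℕ → Finset ℕ) {m : ℕ} (u : Fin m → ℕ) (U : Fin m → Finset ℕ) (p : ℕ) :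
    nU Z u U p = nB Z u p (univ.filter (fun i => p ∈ U i)) := by
  unfold nU nB
  congr 1
  ext c
  simp

theorem nB_empty (Z : ℕ → Finset ℕ) {m : ℕ} (u : Fin m → ℕ) (p : ℕ) : nB Z u p ∅ = p := by
  simp [nB]

theorem nB_mono (Z : ℕ → Finset ℕ) {m : ℕ} (u : Fin m → ℕ) (p : ℕ) {B B' : Finset (Fin m)}
    (h : B ⊆ B') : nB Z u p B' ≤ nB Z u p B := by
  unfold nB
  refine card_le_card ?_
  intro c hc
  rw [mem_filter] at hc ⊢
  exact ⟨hc.1, fun i hi => hc.2 i (h hi)⟩

theorem nB_single (Z : ℕ → Finset ℕ) {m : ℕ} (u : Fin m → ℕ) (p : ℕ) (hZ : ∀ c ∈ Z p, c < p)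
    (i : Fin m) : nB Z u p {i} = (Z p).card := by
  classical
  unfold nB
  have hinj : Set.InjOn (fun c => (c + u i) % p) (range p : Finset ℕ) := by
    intro c hc c' hc' h
    simp only [coe_range, Set.mem_Iio] at hc hc'
    have h1 : c + u i ≡ c' + u i [MOD p] := h
    exact (Nat.ModEq.add_right_cancel' _ h1).eq_of_lt_of_lt hc hc'
  have himg : (range p).image (fun c => (c + u i) % p) = range p := by
    refine eq_of_subset_of_card_le ?_ ?_
    · intro d hd
      obtain ⟨c, hc, rfl⟩ := mem_image.1 hd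
      have : 0 < p := lt_of_le_of_lt (Nat.zero_le _) (mem_range.1 hc)
      exact mem_range.2 (Nat.mod_lt _ this)
    · rw [card_image_of_injOn hinj]
  have h2 : ((range p).filter (fun c => ∀ j ∈ ({i} : Finset (Fin m)), (c + u j) % p ∈ Z p)).image
      (fun c => (c + u i) % p) = Z p := by
    ext d
    constructor
    · intro hd
      obtain ⟨c, hc, rfl⟩ := mem_image.1 hd
      exact (mem_filter.1 hc).2 i (mem_singleton_self i)
    · intro hd
      have h3 : d ∈ (range p).image (fun c => (c + u i) % p) := by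
        rw [himg]
        exact mem_range.2 (hZ d hd)
      obtain ⟨c, hc, rfl⟩ := mem_image.1 h3
      refine mem_image.2 ⟨c, mem_filter.2 ⟨hc, ?_⟩, rfl⟩
      intro j hj
      rw [mem_singleton.1 hj]
      exact hd
  conv_rhs => rw [← h2]
  rw [card_image_of_injOn]
  refine hinj.mono ?_
  rw [coe_subset]
  exact filter_subset _ _

theorem nB_le (Z : ℕ → Finset ℕ) {m : ℕ} (u : Fin m → ℕ) (p : ℕ) (hZ : ∀ c ∈ Z p, c < p)
    {B : Finset (Fin m)} (hB : B.Nonempty) : nB Z u p B ≤ (Z p).card := by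
  obtain ⟨i, hi⟩ := hB
  rw [← nB_single Z u p hZ i]
  exact nB_mono Z u p (singleton_subset_iff.2 hi)

theorem nB_zero (Z : ℕ → Finset ℕ) {m : ℕ} (u : Fin m → ℕ) (p : ℕ)
    {B : Finset (Fin m)} (hB : 2 ≤ B.card) (hC : ¬ Co Z u p) : nB Z u p B = 0 := by
  unfold nB
  rw [card_eq_zero, filter_eq_empty_iff]
  intro c _ h
  obtain ⟨i, hi, j, hj, hij⟩ := one_lt_card.1 hB
  exact hC ⟨i, j, hij, c, h i hi, h j hj⟩

/-- expansion over families of sets of primes -/
theorem fam_sum (P : Finset ℕ) (m : ℕ) (w : ℕ → Finset (Fin m) → ℝ) :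
    ∑ U ∈ Fintype.piFinset (fun _ : Fin m => P.powerset),
      ∏ p ∈ P, w p (univ.filter (fun i => p ∈ U i)) = ∏ p ∈ P, ∑ B : Finset (Fin m), w p B := by
  classical
  rw [prod_sum]
  refine sum_bij' (fun U _ => fun p _ => univ.filter (fun i => p ∈ U i))
    (fun g _ => fun i => P.filter (fun p => ∃ h : p ∈ P, i ∈ g p h)) ?_ ?_ ?_ ?_ ?_
  · intro U _
    simp
  · intro g _
    rw [Fintype.mem_piFinset]
    intro i
    rw [mem_powerset]
    exact filter_subset _ _
  · intro U hU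
    rw [Fintype.mem_piFinset] at hU
    funext i
    ext p
    have := hU i
    rw [mem_powerset] at this
    simp only [mem_filter, mem_univ, true_and, exists_prop]
    constructor
    · rintro ⟨_, _, h⟩
      exact h
    · intro h
      exact ⟨this h, this h, h⟩
  · intro g _
    funext p hp
    ext i
    simp only [mem_filter, mem_univ, true_and]
    constructor
    · rintro ⟨_, _, h⟩
      exact h
    · intro h
      exact ⟨hp, hp, h⟩
  · intro U _
    rw [← prod_attach P]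

/-- the common part of the two local weights -/
noncomputable def gm (a : ℝ) {m : ℕ} (B : Finset (Fin m)) : ℝ := if B.card ≤ 1 then a ^ B.card else 0

theorem gm_nonneg {a : ℝ} (ha : 0 ≤ a) {m : ℕ} (B : Finset (Fin m)) : 0 ≤ gm a B := by
  unfold gm; split_ifs
  · positivity
  · exact le_rfl

theorem gm_le {a : ℝ} (ha : 0 ≤ a) {m : ℕ} (B : Finset (Fin m)) : gm a B ≤ a ^ B.card := by
  unfold gm; split_ifs
  · exact le_rfl
  · positivity

theorem sum_pow (a : ℝ) (m : ℕ) : ∑ B : Finset (Fin m), a ^ B.card = (a + 1) ^ m := by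
  have h := Fintype.sum_pow_mul_eq_add_pow (Fin m) a 1
  simpa using h

theorem sum_gm_le {a : ℝ} (ha : 0 ≤ a) (m : ℕ) : ∑ B : Finset (Fin m), gm a B ≤ Real.exp (m * a) := by
  calc ∑ B : Finset (Fin m), gm a B ≤ ∑ B : Finset (Fin m), a ^ B.card :=
        sum_le_sum fun B _ => gm_le ha B
    _ = (a + 1) ^ m := sum_pow a m
    _ ≤ Real.exp a ^ m := pow_le_pow_left₀ (by positivity) (Real.add_one_le_exp a) m
    _ = Real.exp (m * a) := (Real.exp_nat_mul a m).symm

theorem one_le_sum_gm {a : ℝ} (ha : 0 ≤ a) (m : ℕ) : 1 ≤ ∑ B : Finset (Fin m), gm a B := by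
  have h := single_le_sum (f := fun B : Finset (Fin m) => gm a B) (fun B _ => gm_nonneg ha B)
    (mem_univ ∅)
  simpa [gm] using h

theorem beta_le {a : ℝ} (ha : 0 ≤ a) (ha1 : a ≤ 1) {m : ℕ} (B : Finset (Fin m)) :
    a ^ B.card ≤ gm a B + a ^ 2 := by
  unfold gm; split_ifs with h
  · nlinarith [sq_nonneg a]
  · rw [zero_add]
    exact pow_le_pow_of_le_one ha ha1 (by omega)

open Classical in
theorem alpha_le (Z : ℕ → Finset ℕ) {m : ℕ} (u : Fin m → ℕ) {p r : ℕ} (hp : 0 < p)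
    (hZ : ∀ c ∈ Z p, c < p) (hr : (Z p).card ≤ r) (B : Finset (Fin m)) :
    (nB Z u p B : ℝ) / p ≤ gm (((Z p).card : ℝ) / p) B + if Co Z u p then (r : ℝ) / p else 0 := by
  have hp' : (0 : ℝ) < p := by exact_mod_cast hp
  have h0 : (0 : ℝ) ≤ if Co Z u p then (r : ℝ) / p else 0 := by
    split_ifs <;> positivity
  unfold gm
  split_ifs with h hC hC
  · rcases Nat.le_one_iff_eq_zero_or_eq_one.1 h with h1 | h1
    · rw [card_eq_zero.1 h1, nB_empty, card_empty, pow_zero, div_self hp'.ne']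
      have : (0 : ℝ) ≤ (r : ℝ) / p := by positivity
      linarith
    · obtain ⟨i, rfl⟩ := card_eq_one.1 h1
      rw [nB_single Z u p hZ, card_singleton, pow_one]
      have : (0 : ℝ) ≤ (r : ℝ) / p := by positivity
      linarith
  · rcases Nat.le_one_iff_eq_zero_or_eq_one.1 h with h1 | h1
    · rw [card_eq_zero.1 h1, nB_empty, card_empty, pow_zero, div_self hp'.ne', add_zero]
    · obtain ⟨i, rfl⟩ := card_eq_one.1 h1
      rw [nB_single Z u p hZ, card_singleton, pow_one, add_zero]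
  · rw [zero_add]
    have hne : B.Nonempty := by
      rw [← card_pos]; omega
    have h2 : (nB Z u p B : ℝ) ≤ r := by exact_mod_cast (nB_le Z u p hZ hne).trans hr
    gcongr
  · rw [nB_zero Z u p (by omega) hC]
    simp

theorem gm_le_alpha (Z : ℕ → Finset ℕ) {m : ℕ} (u : Fin m → ℕ) {p : ℕ} (hp : 0 < p)
    (hZ : ∀ c ∈ Z p, c < p) (B : Finset (Fin m)) :
    gm (((Z p).card : ℝ) / p) B ≤ (nB Z u p B : ℝ) / p := by
  have hp' : (0 : ℝ) < p := by exact_mod_cast hp
  unfold gm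
  split_ifs with h
  · rcases Nat.le_one_iff_eq_zero_or_eq_one.1 h with h1 | h1
    · rw [card_eq_zero.1 h1, nB_empty, card_empty, pow_zero, div_self hp'.ne']
    · obtain ⟨i, rfl⟩ := card_eq_one.1 h1
      rw [nB_single Z u p hZ, card_singleton, pow_one]
  · positivity

theorem one_le_EE (a b : ℕ) : 1 ≤ EE a b := by
  unfold EE
  rw [Real.one_le_exp_iff]
  positivity

theorem sum_sq_le (z R : ℕ) (hz : 1 ≤ z) : ∑ p ∈ Pr z R, ((p : ℝ) ^ 2)⁻¹ ≤ 1 / z := by
  rcases le_total z R with h | h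
  · calc ∑ p ∈ Pr z R, ((p : ℝ) ^ 2)⁻¹ ≤ ∑ p ∈ Ioc z R, ((p : ℝ) ^ 2)⁻¹ := by
          refine sum_le_sum_of_subset_of_nonneg (filter_subset _ _) ?_
          intro i _ _
          positivity
      _ ≤ (z : ℝ)⁻¹ - (R : ℝ)⁻¹ := sum_Ioc_inv_sq_le_sub (by omega) h
      _ ≤ 1 / z := by
          rw [one_div]
          have : (0 : ℝ) ≤ (R : ℝ)⁻¹ := by positivity
          linarith
  · have : Pr z R = ∅ := by
      unfold Pr
      rw [Ioc_eq_empty (by omega), filter_empty]
    rw [this, sum_empty]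
    positivity

theorem exp_le_lin {x : ℝ} (h0 : 0 ≤ x) (h1 : x ≤ 1) : Real.exp x ≤ 1 + 2 * x := by
  have h := Real.abs_exp_sub_one_sub_id_le (x := x) (by rw [abs_of_nonneg h0]; exact h1)
  have h2 := (abs_le.1 h).2
  nlinarith

open Classical in
/-- the local sum for the correlations -/
theorem loc_alpha (Z : ℕ → Finset ℕ) {m : ℕ} (u : Fin m → ℕ) {p r K : ℕ} (hp : 0 < p)
    (hZ : ∀ c ∈ Z p, c < p) (hr : (Z p).card ≤ r) (hK : 2 ^ m * r ≤ K) :
    ∑ B : Finset (Fin m), (nB Z u p B : ℝ) / p ≤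
      (∑ B : Finset (Fin m), gm (((Z p).card : ℝ) / p) B) *
        (if Co Z u p then (1 + (K : ℝ) / p) else 1) := by
  have hp' : (0 : ℝ) < p := by exact_mod_cast hp
  have ha : (0 : ℝ) ≤ ((Z p).card : ℝ) / p := by positivity
  have h1 := one_le_sum_gm ha m
  calc ∑ B : Finset (Fin m), (nB Z u p B : ℝ) / p
      ≤ ∑ B : Finset (Fin m), (gm (((Z p).card : ℝ) / p) B + if Co Z u p then (r : ℝ) / p else 0) :=
        sum_le_sum fun B _ => alpha_le Z u hp hZ hr B
    _ = ∑ B : Finset (Fin m), gm (((Z p).card : ℝ) / p) B +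
        2 ^ m * (if Co Z u p then (r : ℝ) / p else 0) := by
        rw [sum_add_distrib, sum_const, card_univ, Fintype.card_finset, Fintype.card_fin,
          nsmul_eq_mul]
        push_cast
        ring
    _ ≤ _ := by
        split_ifs
        · have h2 : 2 ^ m * ((r : ℝ) / p) ≤ (K : ℝ) / p := by
            rw [← mul_div_assoc]
            have : (2 : ℝ) ^ m * r ≤ K := by exact_mod_cast hK
            gcongr
          have h3 : (0 : ℝ) ≤ (K : ℝ) / p := by positivity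
          nlinarith
        · simp

/-- the local sum for the power of the mean value -/
theorem loc_beta (Z : ℕ → Finset ℕ) (m : ℕ) {p r : ℕ} (hp : 0 < p)
    (hZ : ∀ c ∈ Z p, c < p) (hr : (Z p).card ≤ r) :
    ∑ B : Finset (Fin m), (((Z p).card : ℝ) / p) ^ B.card ≤
      (∑ B : Finset (Fin m), gm (((Z p).card : ℝ) / p) B) *
        (1 + 2 ^ m * (r : ℝ) ^ 2 * ((p : ℝ) ^ 2)⁻¹) := by
  have hp' : (0 : ℝ) < p := by exact_mod_cast hp
  have ha : (0 : ℝ) ≤ ((Z p).card : ℝ) / p := by positivity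
  have ha1 : ((Z p).card : ℝ) / p ≤ 1 := by
    rw [div_le_one hp']
    have : (Z p).card ≤ (range p).card := card_le_card fun c hc => mem_range.2 (hZ c hc)
    rw [card_range] at this
    exact_mod_cast this
  have h1 := one_le_sum_gm ha m
  calc ∑ B : Finset (Fin m), (((Z p).card : ℝ) / p) ^ B.card
      ≤ ∑ B : Finset (Fin m), (gm (((Z p).card : ℝ) / p) B + (((Z p).card : ℝ) / p) ^ 2) :=
        sum_le_sum fun B _ => beta_le ha ha1 B
    _ = ∑ B : Finset (Fin m), gm (((Z p).card : ℝ) / p) B +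
        2 ^ m * (((Z p).card : ℝ) / p) ^ 2 := by
        rw [sum_add_distrib, sum_const, card_univ, Fintype.card_finset, Fintype.card_fin,
          nsmul_eq_mul]
        push_cast
        ring
    _ ≤ _ := by
        have h2 : 2 ^ m * (((Z p).card : ℝ) / p) ^ 2 ≤ 2 ^ m * (r : ℝ) ^ 2 * ((p : ℝ) ^ 2)⁻¹ := by
          have : (((Z p).card : ℝ) / p) ^ 2 ≤ (r : ℝ) ^ 2 * ((p : ℝ) ^ 2)⁻¹ := by
            rw [div_pow, div_eq_mul_inv]
            have : ((Z p).card : ℝ) ≤ r := by exact_mod_cast hr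
            gcongr
          calc 2 ^ m * (((Z p).card : ℝ) / p) ^ 2 ≤ 2 ^ m * ((r : ℝ) ^ 2 * ((p : ℝ) ^ 2)⁻¹) := by
                gcongr
            _ = _ := by ring
        have h3 : (0 : ℝ) ≤ 2 ^ m * (r : ℝ) ^ 2 * ((p : ℝ) ^ 2)⁻¹ := by positivity
        nlinarith

theorem tup : S_TUP := by
  classical
  intro r m
  set K : ℕ := 2 ^ (m + 1) * (r + 1) ^ 2 * (m + 1) with hKdef
  have hK1 : 2 ^ m * r ≤ K := by
    have h1 : r ≤ (r + 1) ^ 2 := by nlinarith
    have h2 : 2 ^ m ≤ 2 ^ (m + 1) := Nat.pow_le_pow_right (by norm_num) (by omega)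
    calc 2 ^ m * r ≤ 2 ^ (m + 1) * (r + 1) ^ 2 := Nat.mul_le_mul h2 h1
      _ ≤ K := Nat.le_mul_of_pos_right _ (by omega)
  have hK2 : m * r ≤ K := by
    have h1 : r ≤ (r + 1) ^ 2 := by nlinarith
    have h2 : 1 ≤ 2 ^ (m + 1) := Nat.one_le_two_pow
    calc m * r = 1 * r * m := by ring
      _ ≤ 2 ^ (m + 1) * (r + 1) ^ 2 * (m + 1) :=
        Nat.mul_le_mul (Nat.mul_le_mul h2 h1) (by omega)
  have hK3 : 2 ^ (m + 1) * r ^ 2 ≤ K := by
    have h1 : r ^ 2 ≤ (r + 1) ^ 2 := by nlinarith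
    calc 2 ^ (m + 1) * r ^ 2 ≤ 2 ^ (m + 1) * (r + 1) ^ 2 := Nat.mul_le_mul le_rfl h1
      _ ≤ K := Nat.le_mul_of_pos_right _ (by omega)
  have hK0 : 1 ≤ K := by
    rw [hKdef]
    exact Nat.succ_le_of_lt (by positivity)
  refine ⟨K, ?_⟩
  intro z R hz Z hZ θ hθ u
  have hz1 : 1 ≤ z := hK0.trans hz
  have hzr : (1 : ℝ) ≤ z := by exact_mod_cast hz1
  set P := Pr z R with hP
  have hpos : ∀ p ∈ P, 0 < p := fun p hp => (mem_filter.1 hp).2.pos
  set a : ℕ → ℝ := fun p => ((Z p).card : ℝ) / p with ha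
  have ha0 : ∀ p, 0 ≤ a p := fun p => by simp only [ha]; positivity
  -- the families
  set F := Fintype.piFinset (fun _ : Fin m => P.powerset) with hF
  let Bf : (Fin m → Finset ℕ) → ℕ → Finset (Fin m) := fun U p => univ.filter (fun i => p ∈ U i)
  -- the first weights
  have hA : ∀ U ∈ F, aU Z θ u U = (∏ i, θ (U i)) * ∏ p ∈ P, (nB Z u p (Bf U p) : ℝ) / p := by
    intro U hU
    rw [hF, Fintype.mem_piFinset] at hU
    unfold aU
    congr 1
    have hsub : univ.biUnion U ⊆ P := by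
      intro p hp
      obtain ⟨i, _, hi⟩ := mem_biUnion.1 hp
      exact mem_powerset.1 (hU i) hi
    rw [← prod_subset hsub]
    · refine prod_congr rfl fun p _ => ?_
      rw [nU_eq]
    · intro p hp hnp
      have : Bf U p = ∅ := by
        rw [filter_eq_empty_iff]
        intro i _ hi
        exact hnp (mem_biUnion.2 ⟨i, mem_univ i, hi⟩)
      rw [this, nB_empty, div_self]
      exact_mod_cast (hpos p hp).ne'
  -- the second weights
  have hB : ∑ U ∈ F, (∏ i, θ (U i)) * ∏ p ∈ P, a p ^ (Bf U p).card = qq Z z R θ ^ m := by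
    have h1 : qq Z z R θ ^ m = ∏ _i : Fin m, qq Z z R θ := by
      rw [prod_const, card_univ, Fintype.card_fin]
    rw [h1]
    unfold qq
    rw [prod_univ_sum]
    refine sum_congr rfl fun U hU => ?_
    rw [Fintype.mem_piFinset] at hU
    rw [prod_mul_distrib]
    congr 1
    have h2 : ∀ i, ∏ p ∈ U i, ((Z p).card : ℝ) / p = ∏ p ∈ P, if p ∈ U i then a p else 1 := by
      intro i
      rw [prod_ite_mem, inter_eq_right.2 (mem_powerset.1 (hU i))]
    simp_rw [h2]
    rw [prod_comm]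
    refine prod_congr rfl fun p _ => ?_
    rw [prod_ite, prod_const_one, mul_one, prod_const]
  have hθ1 : ∀ U : Fin m → Finset ℕ, |∏ i, θ (U i)| ≤ 1 := by
    intro U
    rw [abs_prod]
    exact prod_le_one (fun i _ => abs_nonneg _) fun i _ => hθ _
  have hα0 : ∀ (p : ℕ) (B : Finset (Fin m)), 0 ≤ (nB Z u p B : ℝ) / p := fun p B => by positivity
  -- the sums of the weights
  have sA := fam_sum P m (fun p B => (nB Z u p B : ℝ) / p)
  have sB := fam_sum P m (fun p B => a p ^ B.card)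
  have sG := fam_sum P m (fun p B => gm (a p) B)
  set G : ℕ → ℝ := fun p => ∑ B : Finset (Fin m), gm (a p) B with hG
  have hG1 : ∀ p, 1 ≤ G p := fun p => one_le_sum_gm (ha0 p) m
  have hG0 : ∀ p, 0 ≤ G p := fun p => zero_le_one.trans (hG1 p)
  have hGP : ∏ p ∈ P, G p ≤ EE z R ^ K := by
    calc ∏ p ∈ P, G p ≤ ∏ p ∈ P, Real.exp ((m * r : ℕ) * (1 / p)) := by
          refine prod_le_prod (fun p _ => hG0 p) fun p hp => ?_
          refine (sum_gm_le (ha0 p) m).trans ?_
          rw [Real.exp_le_exp]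
          have hr : ((Z p).card : ℝ) ≤ r := by exact_mod_cast (hZ p hp).1
          have hp0 : (0 : ℝ) < p := by exact_mod_cast hpos p hp
          simp only [ha]
          push_cast
          calc (m : ℝ) * (((Z p).card : ℝ) / p) ≤ m * ((r : ℝ) / p) := by gcongr
            _ = m * r * (1 / p) := by ring
      _ = EE z R ^ (m * r) := by
          rw [← Real.exp_sum, ← mul_sum]
          unfold EE
          rw [← Real.exp_nat_mul]
      _ ≤ EE z R ^ K := pow_le_pow_right₀ (one_le_EE z R) hK2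
  have hGP1 : 1 ≤ ∏ p ∈ P, G p := by
    calc (1 : ℝ) = ∏ p ∈ P, (1 : ℝ) := by rw [prod_const_one]
      _ ≤ ∏ p ∈ P, G p := prod_le_prod (fun _ _ => zero_le_one) fun p _ => hG1 p
  have hEA : ∏ p ∈ P, ∑ B : Finset (Fin m), (nB Z u p B : ℝ) / p ≤
      (∏ p ∈ P, G p) * Coll K Z z R u := by
    have h1 : Coll K Z z R u = ∏ p ∈ P, if Co Z u p then (1 + (K : ℝ) / p) else 1 := by
      unfold Coll
      rw [prod_filter]
    rw [h1, ← prod_mul_distrib]
    refine prod_le_prod (fun p _ => sum_nonneg fun B _ => hα0 p B) fun p hp => ?_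
    exact loc_alpha Z u (hpos p hp) (hZ p hp).2 (hZ p hp).1 hK1
  have hEB : ∏ p ∈ P, ∑ B : Finset (Fin m), a p ^ B.card ≤
      (∏ p ∈ P, G p) * (1 + K / z) := by
    calc ∏ p ∈ P, ∑ B : Finset (Fin m), a p ^ B.card
        ≤ ∏ p ∈ P, (G p * (1 + 2 ^ m * (r : ℝ) ^ 2 * ((p : ℝ) ^ 2)⁻¹)) := by
          refine prod_le_prod (fun p _ => sum_nonneg fun B _ => pow_nonneg (ha0 p) _) fun p hp => ?_
          exact loc_beta Z m (hpos p hp) (hZ p hp).2 (hZ p hp).1
      _ = (∏ p ∈ P, G p) * ∏ p ∈ P, (1 + 2 ^ m * (r : ℝ) ^ 2 * ((p : ℝ) ^ 2)⁻¹) := prod_mul_distrib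
      _ ≤ (∏ p ∈ P, G p) * (1 + K / z) := by
          refine mul_le_mul_of_nonneg_left ?_ (zero_le_one.trans hGP1)
          calc ∏ p ∈ P, (1 + 2 ^ m * (r : ℝ) ^ 2 * ((p : ℝ) ^ 2)⁻¹)
              ≤ ∏ p ∈ P, Real.exp (2 ^ m * (r : ℝ) ^ 2 * ((p : ℝ) ^ 2)⁻¹) := by
                refine prod_le_prod (fun p _ => by positivity) fun p _ => ?_
                rw [add_comm]
                exact Real.add_one_le_exp _
            _ = Real.exp (2 ^ m * (r : ℝ) ^ 2 * ∑ p ∈ P, ((p : ℝ) ^ 2)⁻¹) := by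
                rw [← Real.exp_sum, ← mul_sum]
            _ ≤ Real.exp (2 ^ m * (r : ℝ) ^ 2 * (1 / z)) := by
                rw [Real.exp_le_exp]
                exact mul_le_mul_of_nonneg_left (sum_sq_le z R hz1) (by positivity)
            _ ≤ 1 + 2 * (2 ^ m * (r : ℝ) ^ 2 * (1 / z)) := by
                refine exp_le_lin (by positivity) ?_
                have h3 : (2 : ℝ) ^ (m + 1) * (r : ℝ) ^ 2 ≤ z := by exact_mod_cast hK3.trans hz
                rw [mul_one_div, div_le_one (by linarith)]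
                have h4 : (0 : ℝ) ≤ 2 ^ m * (r : ℝ) ^ 2 := by positivity
                rw [pow_succ] at h3
                linarith
            _ ≤ 1 + K / z := by
                have h3 : (2 : ℝ) ^ (m + 1) * (r : ℝ) ^ 2 ≤ K := by exact_mod_cast hK3
                have h5 : 2 * (2 ^ m * (r : ℝ) ^ 2 * (1 / z)) = (2 : ℝ) ^ (m + 1) * (r : ℝ) ^ 2 / z := by
                  rw [pow_succ]; ring
                rw [h5]
                gcongr
  have hCn : 1 ≤ Coll K Z z R u := by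
    unfold Coll
    calc (1 : ℝ) = ∏ p ∈ (Pr z R).filter (fun p => Co Z u p), (1 : ℝ) := by rw [prod_const_one]
      _ ≤ _ := prod_le_prod (fun _ _ => zero_le_one) fun p _ => by
        have : (0 : ℝ) ≤ (K : ℝ) / p := by positivity
        linarith
  constructor
  · rw [sum_congr rfl hA, ← hB, ← sum_sub_distrib]
    have hterm : ∀ U ∈ F, |(∏ i, θ (U i)) * ∏ p ∈ P, (nB Z u p (Bf U p) : ℝ) / p -
        (∏ i, θ (U i)) * ∏ p ∈ P, a p ^ (Bf U p).card| ≤
        ((∏ p ∈ P, (nB Z u p (Bf U p) : ℝ) / p) - ∏ p ∈ P, gm (a p) (Bf U p)) +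
        ((∏ p ∈ P, a p ^ (Bf U p).card) - ∏ p ∈ P, gm (a p) (Bf U p)) := by
      intro U _
      have h1 : ∏ p ∈ P, gm (a p) (Bf U p) ≤ ∏ p ∈ P, (nB Z u p (Bf U p) : ℝ) / p :=
        prod_le_prod (fun p _ => gm_nonneg (ha0 p) _) fun p hp =>
          gm_le_alpha Z u (hpos p hp) (hZ p hp).2 _
      have h2 : ∏ p ∈ P, gm (a p) (Bf U p) ≤ ∏ p ∈ P, a p ^ (Bf U p).card :=
        prod_le_prod (fun p _ => gm_nonneg (ha0 p) _) fun p _ => gm_le (ha0 p) _
      rw [← mul_sub, abs_mul]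
      refine (mul_le_of_le_one_left (abs_nonneg _) (hθ1 U)).trans ?_
      rw [abs_le]
      constructor <;> linarith
    refine (abs_sum_le_sum_abs _ _).trans ((sum_le_sum hterm).trans ?_)
    rw [sum_add_distrib, sum_sub_distrib, sum_sub_distrib]
    rw [hF] at *
    rw [sA, sB, sG]
    have h6 : (∏ p ∈ P, G p) * (Coll K Z z R u - 1 + K / z) ≤
        EE z R ^ K * (Coll K Z z R u - 1 + K / z) := by
      refine mul_le_mul_of_nonneg_right hGP ?_
      have : (0 : ℝ) ≤ (K : ℝ) / z := by positivity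
      linarith
    refine le_trans ?_ h6
    have h7 : (∏ p ∈ P, G p) * (Coll K Z z R u - 1 + K / z) =
      ((∏ p ∈ P, G p) * Coll K Z z R u - ∏ p ∈ P, G p) +
        ((∏ p ∈ P, G p) * (1 + K / z) - ∏ p ∈ P, G p) := by ring
    rw [h7]
    linarith
  · have h1 : ∀ U ∈ F, |aU Z θ u U| ≤ ∏ p ∈ P, (nB Z u p (Bf U p) : ℝ) / p := by
      intro U hU
      have h0 : 0 ≤ ∏ p ∈ P, (nB Z u p (Bf U p) : ℝ) / p := prod_nonneg fun p _ => hα0 p _
      rw [hA U hU, abs_mul, abs_of_nonneg h0]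
      exact mul_le_of_le_one_left h0 (hθ1 U)
    refine (sum_le_sum h1).trans ?_
    rw [hF, sA]
    refine hEA.trans ?_
    exact mul_le_mul_of_nonneg_right hGP (zero_le_one.trans hCn)

end Pool.Agent.Y484.HS
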